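import Pool.Agent.Helper32.Arb.Gsum

/-!
Project ARB (MP_2b0227_gt), packet GBESIDE.
-/

namespace Pool.Agent.Helper51.Arb

open Pool.Agent.Helper37.Arb Pool.Agent.Helper32.Arb

/-- Reversal of the second factor. -/
theorem conv_rev {f : ℤ → ℝ} (g : ℤ → ℝ) {A : ℤ} (hf : ∀ s, f (A - s) = f s) (B v : ℤ) :
    conv f g (A + B - v) = conv f (fun u ↦ g (B - u)) v := by
  unfold conv
  rw [← finsum_comp_equiv (Equiv.subLeft A)]
  refine finsum_congr fun i ↦ ?_
  show f (A - i) * g (A + B - v - (A - i)) = f i * g (B - (v - i))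
  rw [hf]
  congr 2
  ring

theorem goodBeside : GoalGoodBeside := by
  intro hCB hN1 N₁ k₁ k₁' N₂ k₂ A B L b h₁ h₂
  have g₂ := h₂.half
  set a : ℤ → ℝ := fun s ↦ b s + L (N₂ - s) with ha
  have hk₁ := h₁.hk
  have ne₁ := h₁.ne
  have ne₁' := h₁.ne'
  have ne₂ := g₂.ne
  have c1 := hCB a b B (fin_supp g₂.a0) (fin_supp g₂.b0) (fin_supp h₁.b0)
    (hN1 _ _ _ _ _ h₁).1 (hN1 _ _ _ _ _ g₂).2
  have c2 := hCB A B b (fin_supp h₁.a0) (fin_supp h₁.b0) (fin_supp g₂.b0)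
    (hN1 _ _ _ _ _ g₂).1 (hN1 _ _ _ _ _ h₁).2
  have n1 : ∀ v, 0 ≤ conv B a v := conv_nonneg (b_nonneg h₁) (a_nonneg g₂)
  have n2 : ∀ v, 0 ≤ conv A b v := conv_nonneg (a_nonneg h₁) (b_nonneg g₂)
  have n3 : ∀ v, 0 ≤ conv B L v := conv_nonneg (b_nonneg h₁) h₂.L0
  have revL : ∀ s, conv B L (N₁ - 1 + N₂ - s) = conv B (fun u ↦ L (N₂ - u)) s :=
    fun s ↦ conv_rev L h₁.pb N₂ s
  have symA : ∀ s, conv A b (N₁ - 1 + N₂ - s) = conv A b s := by
    intro s
    have := conv_symm h₁.pa g₂.pb s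
    rw [← this]
    congr 1
    ring
  have key : ∀ s, conv B b s + (conv B L + conv A b) (N₁ - 1 + N₂ - s) =
      conv B a s + conv A b s := by
    intro s
    rw [Pi.add_apply, revL, symA, conv_eq_sum b h₁.b0, conv_eq_sum _ h₁.b0, conv_eq_sum a h₁.b0,
      ← add_assoc, ← Finset.sum_add_distrib]
    congr 1
    refine Finset.sum_congr rfl fun i _ ↦ ?_
    rw [ha]
    ring
  refine ⟨?_, ?_, ?_, ?_, ?_, ?_, ?_, ?_, ?_, ?_, ?_, ?_⟩
  · intro s
    rw [Pi.add_apply]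
    exact add_nonneg (n3 s) (n2 s)
  · intro s
    rw [Pi.add_apply, Pi.add_apply, revL, symA]
    have e1 : conv B b s - conv B b (s - 1) = conv B L s - conv B (fun u ↦ L (N₂ - u)) s := by
      rw [conv_eq_sum b h₁.b0, conv_eq_sum b h₁.b0, conv_eq_sum L h₁.b0, conv_eq_sum _ h₁.b0,
        ← Finset.sum_sub_distrib, ← Finset.sum_sub_distrib]
      refine Finset.sum_congr rfl fun i _ ↦ ?_
      have := h₂.rel (s - i)
      have e2 : s - 1 - i = s - i - 1 := by ring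
      rw [e2, ← mul_sub, this]
      ring
    linarith
  · exact Or.inl rfl
  · omega
  · omega
  · intro s hs
    rw [key, conv_zero h₁.b0 g₂.a0 s (by omega), conv_zero h₁.a0 g₂.b0 s (by omega), add_zero]
  · intro s h1 h2
    rw [key]
    exact add_pos_of_pos_of_nonneg
      (conv_pos h₁.b0 h₁.b1 (a_nonneg g₂) g₂.a1 ne₁ g₂.ne' s (by omega) (by omega)) (n2 s)
  · intro s hs
    exact conv_zero h₁.b0 g₂.b0 s (by omega)
  · intro s h1 h2
    exact conv_pos h₁.b0 h₁.b1 (b_nonneg g₂) g₂.b1 ne₁ ne₂ s (by omega) (by omega)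
  · intro s
    rw [key, key, symA]
    congr 1
    rw [← conv_symm h₁.pb g₂.pa s]
  · intro s
    rw [← conv_symm h₁.pb g₂.pb s]
    congr 1
    ring
  · intro s
    rw [key, key, add_mul, add_mul]
    refine add_le_add ?_ (c2 s)
    have h3 := c1 s
    rw [conv_comm a B, conv_comm b B] at h3
    exact h3

end Pool.Agent.Helper51.Arb
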